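import Pool.Agent.N461.L2.Thm

/-!
# The exact `ℓ_2`-norm version of Turán's problem for the tetrahedron

For a 3-graph `H` let `co2 H` be the sum of the squares of the codegrees of all pairs of vertices.
For every `n ≥ 10^36` the 3-graphs without a complete subgraph on four vertices with `n` vertices for
which `co2` is largest are exactly Turán's constructions with balanced parts.
-/

set_option autoImplicit false
open Finset

namespace Pool.Agent.Results.MP_f1799f_co.CodegreeSquaresExact

variable {n : ℕ}

/-- No four vertices span all four triples of `H`. -/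
def K43Free (H : Finset (Finset (Fin n))) : Prop :=
  ∀ S : Finset (Fin n), S.card = 4 → ∃ e ⊆ S, e.card = 3 ∧ e ∉ H

/-- The codegree of a set `P` of two vertices: the number of edges containing `P`. -/
def codegree (H : Finset (Finset (Fin n))) (P : Finset (Fin n)) : ℕ := (H.filter (P ⊆ ·)).card

/-- The codegree squared sum of `H`: the sum of the squares of the codegrees of all sets of two
vertices. -/
def co2 (H : Finset (Finset (Fin n))) : ℕ :=
  ∑ P ∈ (univ : Finset (Fin n)).powersetCard 2, codegree H P ^ 2

/-- Turán's construction for the parts `g = 0`, `g = 1`, `g = 2`: the triples that meet all three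
parts, and the triples with two vertices in one part and one vertex in the next part, where part 0
follows part 2. -/
def turan (g : Fin n → Fin 3) : Finset (Finset (Fin n)) :=
  ((univ : Finset (Fin n)).powersetCard 3).filter fun e =>
    (∀ p, ∃ i ∈ e, g i = p) ∨
      ∃ p, (e.filter fun i => g i = p).card = 2 ∧ (e.filter fun i => g i = p + 1).card = 1

/-- Any two parts differ by at most one in size. -/
def Balanced (g : Fin n → Fin 3) : Prop :=
  ∀ i j : Fin 3, ((univ : Finset (Fin n)).filter fun v => g v = i).card ≤
    ((univ : Finset (Fin n)).filter fun v => g v = j).card + 1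

theorem turan_eq (g : Fin n → Fin 3) : turan g = N461.TT.turan g := by
  unfold turan N461.TT.turan N461.TT.Rule
  ext e
  simp only [mem_filter]

/-- For every `n ≥ 10^36` and every `K_4^3`-free 3-graph `H` on `n` vertices, the codegree squared
sum of `H` is at most the one of the balanced construction of Turán, with equality only if `H` is
Turán's construction for some balanced parts. -/
theorem result (n : ℕ) (hn : 10 ^ 36 ≤ n) (g : Fin n → Fin 3) (hg : Balanced g) :
    (∀ e ∈ turan g, e.card = 3) ∧ K43Free (turan g) ∧
    ∀ H : Finset (Finset (Fin n)), (∀ e ∈ H, e.card = 3) → K43Free H →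
      co2 H ≤ co2 (turan g) ∧
      (co2 H = co2 (turan g) → ∃ c : Fin n → Fin 3, Balanced c ∧ H = turan c) := by
  rw [turan_eq]
  refine ⟨N461.TT.turan_three g, N461.TT.turan_free g, fun H h3 hK => ?_⟩
  obtain ⟨h1, h2⟩ := N461.L2.main_co2 hn h3 hK hg
  refine ⟨h1, fun he => ?_⟩
  obtain ⟨c, hc, hH⟩ := h2 he
  exact ⟨c, hc, by rw [turan_eq]; exact hH⟩

end Pool.Agent.Results.MP_f1799f_co.CodegreeSquaresExact
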