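import Pool.Agent.N730.DP.I

/-!
# Degree powers in Turán's `(3,4)`-problem

Turán's problem maximises the sum of the degrees of the vertices of a 3-graph without a complete
subgraph `K_4^3`. Here the sum of the `p`-th powers of the degrees is maximised; `density p` is the
extremal constant, for degrees normalised by `n ^ 2 / 2`. Turán's construction with three equal parts gives
the value `(5 / 9) ^ p`; if it is optimal for one `p ≥ 1` then Turán's conjecture follows from the
inequality of the power means.

It is proved here that Turán's construction is not optimal for `p ≥ 3000`, whatever the sizes of its three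
parts: the 3-graph given by `fourPattern` on four classes, with `k, k, 3 k, n - 5 k` vertices where
`k = ⌊n / (4 p)⌋`, is `K_4^3`-free, and its sum is larger than that of every such construction by
more than `n / (50 p ^ 2)`. With three equal parts the construction is not optimal for `p ≥ 7`. Moreover
`1 / (2 e p) + 9 / (400 p ^ 2) ≤ density p ≤ 1 / (2 e p) + 64 / p ^ 2` (the upper bound for
`p ≥ 3000`), so the second term has the exact order `1 / p ^ 2`.

The upper bound rests on a bound for the number of the vertices of degree at least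
`(1 - s) n ^ 2 / 2` by `(s / 2 + s ^ 2) n`, which is optimal up to the term `s ^ 2`.

Proofs. Upper bound: let `B` be a set of `k` vertices, for `b ∈ B` let `M_b` be the number of the pairs
of vertices outside `B` which do not form an edge with `b`, and for `b, b' ∈ B` let `N_{bb'}` be the
set of the vertices outside `B` which form an edge with `b, b'`. No pair in `N_{bb'}` forms an edge
with both of `b` and `b'`, so `|N_{bb'}| ^ 2 ≤ M_b + M_{b'}`. With the Cauchy-Schwarz inequality
the sum of `2 degree b` over `b ∈ B` is at most `k (n ^ 2 - 2 n k + 4 k ^ 2)`. This bounds the number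
of vertices of large degree. The bound for the sum of the powers follows from the same estimate
for the single vertices `b`, and from `x exp (-x) ≤ 1 / e`.

Comparison: in Turán's construction only the vertices of one class, of size `x n`, can have a large
degree, it is at most `(1 - 2 x + 2 x ^ 2) n ^ 2 / 2`, and `x (1 - 2 x + 2 x ^ 2) ^ p` is at most
`1 / (2 e p) + 3 / p ^ 3`. In the construction with four classes, with `β = 1 / (2 p)`, half of the
`β n` vertices of large degree have degree `(1 - 2 β + 2 β ^ 2) n ^ 2 / 2` and half have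
degree `(1 - 2 β + 3 β ^ 2) n ^ 2 / 2`, up to `O(n)`.
-/

set_option autoImplicit false
open Finset Filter Topology
open scoped Classical

namespace Pool.Agent.Results.MP_f1799f_co.DegreePowers

/-- No four vertices of the 3-graph `H` span all four triples. -/
def CliqueFree {n : ℕ} (H : Finset (Finset (Fin n))) : Prop :=
  ∀ Q : Finset (Fin n), Q.card = 4 → ∃ e ⊆ Q, e.card = 3 ∧ e ∉ H

/-- The degree: the number of edges containing `v`. -/
noncomputable def degree {n : ℕ} (H : Finset (Finset (Fin n))) (v : Fin n) : ℕ :=
  (H.filter fun e => v ∈ e).card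

/-- The sum of the `p`-th powers of the degrees, normalised by `n ^ 2 / 2`. -/
noncomputable def powerSum {n : ℕ} (p : ℝ) (H : Finset (Finset (Fin n))) : ℝ :=
  ∑ v : Fin n, (2 * (degree H v : ℝ) / (n : ℝ) ^ 2) ^ p

/-- The triples of vertices whose multiset of classes belongs to `E`; `f v` is the class of `v`. -/
noncomputable def pattern {n m : ℕ} (E : Finset (Multiset (Fin m))) (f : Fin n → Fin m) :
    Finset (Finset (Fin n)) :=
  univ.filter fun e => e.card = 3 ∧ e.val.map f ∈ E

/-- The pattern of Turán's construction: the triples meeting all three classes, and those with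
two vertices in a class and one in the next class. -/
def turanPattern : Finset (Multiset (Fin 3)) := {{0, 1, 2}, {0, 0, 1}, {1, 1, 2}, {2, 2, 0}}

/-- A pattern with four classes. -/
def fourPattern : Finset (Multiset (Fin 4)) :=
  {{0, 3, 3}, {0, 2, 3}, {1, 3, 3}, {1, 2, 3}, {1, 2, 2}, {0, 0, 2}, {0, 1, 2}, {0, 1, 1}}

/-- Four classes: the first `k` vertices, the next `k`, the next `3 * k`, and the rest. -/
def part (n k : ℕ) (x : Fin n) : Fin 4 :=
  if x.val < k then 0 else if x.val < 2 * k then 1 else if x.val < 5 * k then 2 else 3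

/-- The triples with exactly one vertex among the first `m` vertices. -/
noncomputable def oneOf (n m : ℕ) : Finset (Finset (Fin n)) :=
  univ.filter fun e => e.card = 3 ∧ (e.filter fun x => x.val < m).card = 1

/-- The extremal constant: the supremum of `powerSum p H / n` over all `K_4^3`-free
3-graphs `H` with `n ≥ 1` vertices. -/
noncomputable def density (p : ℝ) : ℝ :=
  sSup {r : ℝ | ∃ (n : ℕ) (H : Finset (Finset (Fin n))), 0 < n ∧ (∀ e ∈ H, e.card = 3) ∧
    CliqueFree H ∧ r = powerSum p H / n}

/-- **Degree powers in Turán's problem for `K_4^3`, for large `p`.** -/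
theorem result :
    -- all these 3-graphs are `K_4^3`-free
    (∀ (n : ℕ) (f : Fin n → Fin 3), (∀ e ∈ pattern turanPattern f, e.card = 3) ∧
      CliqueFree (pattern turanPattern f)) ∧
    (∀ (n : ℕ) (f : Fin n → Fin 4), (∀ e ∈ pattern fourPattern f, e.card = 3) ∧
      CliqueFree (pattern fourPattern f)) ∧
    -- Turán's construction is not optimal, whatever the sizes of the parts
    (∀ p : ℝ, 3000 ≤ p → ∃ N : ℕ, ∀ n : ℕ, N ≤ n → ∀ f : Fin n → Fin 3,
      powerSum p (pattern turanPattern f) + n / (50 * p ^ 2) <
        powerSum p (pattern fourPattern (part n ⌊(n : ℝ) / (4 * p)⌋₊))) ∧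
    -- the extremal constant
    (∀ p : ℝ, 3000 ≤ p →
      ∀ (n : ℕ) (H : Finset (Finset (Fin n))), (∀ e ∈ H, e.card = 3) → CliqueFree H →
        powerSum p H ≤ (1 / (2 * Real.exp 1 * p) + 64 / p ^ 2) * n) ∧
    (∀ p : ℝ, 2 ≤ p → 1 / (2 * Real.exp 1 * p) + 9 / (400 * p ^ 2) ≤ density p) ∧
    Tendsto (fun p : ℝ => p * density p) atTop (𝓝 (1 / (2 * Real.exp 1))) ∧
    (∀ p : ℝ, 7 ≤ p → (5 / 9 : ℝ) ^ p < density p) ∧
    -- the number of the vertices of large degree
    (∀ s : ℝ, 0 < s → s ≤ 1 / 8 →
      ∀ (n : ℕ) (H : Finset (Finset (Fin n))), (∀ e ∈ H, e.card = 3) → CliqueFree H →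
        ((univ.filter fun v : Fin n =>
          (1 - s) * (n : ℝ) ^ 2 ≤ 2 * (degree H v : ℝ)).card : ℝ) ≤ (s / 2 + s ^ 2) * n) ∧
    ∀ n m : ℕ, (∀ e ∈ oneOf n m, e.card = 3) ∧ CliqueFree (oneOf n m) ∧ (m ≤ n →
      ∀ v : Fin n, v.val < m →
        ((n : ℝ) - m) * ((n : ℝ) - m - 1) ≤ 2 * (degree (oneOf n m) v : ℝ)) :=
  ⟨fun _ f => ⟨N730.DP.pattern_card _ f, N730.DP.pattern_free f N730.DP.turan_ok⟩,
    fun _ f => ⟨N730.DP.pattern_card _ f, N730.DP.pattern_free f N730.DP.four_ok⟩,
    fun _ hp => N730.DP.four_beats hp,
    fun _ hp _ _ h3 hF => N730.DP.upper hp h3 hF,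
    fun _ hp => N730.DP.density_second hp,
    N730.DP.density_tendsto, fun _ hp => N730.DP.balanced_lt_density hp,
    fun _ hs0 hs _ _ h3 hF => N730.DP.card_large hs0 hs h3 hF,
    fun n m => ⟨N601.LP4.oneOf_card n m, N601.LP4.oneOf_free n m,
      fun hm _ hv => N730.DP.degree_oneOf hm hv⟩⟩

end Pool.Agent.Results.MP_f1799f_co.DegreePowers
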