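import Pool.Agent.N910.InvolutionFamily

set_option autoImplicit false

/-!
Turan's (3,4)-problem for 3-graphs with many local involutions. Let `H` be a `K_4^3`-free 3-graph
whose vertex set is divided into three classes of size `m` without inner edges, and let there be
`c (m - 1)` involutions preserving the classes, any two vertices of the same class being exchanged
by `c` of them, such that the link of each exchanged pair is closed under the involution. Then `H`
has at most `m² (5 m - 3) / 2` edges, Turan's number for `3 m` vertices, with equality only for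
Turan's construction. This applies to all 3-graphs on which an elementary abelian 2-group acts
freely with three orbits (inner edges are then excluded automatically), and, with the bound
`5 (3 m)³ / 54`, to all 3-graphs on three copies of a finite abelian group which have no inner
edges and are invariant under all half-turns `x ↦ s - x`. With one or two classes instead of three,
and inner edges allowed, the density is at most `1/2`.
-/

namespace Pool.Agent.Results.MP_f1799f_co.HalfTurnSymmetry

open Pool.Agent.N910.HalfTurn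

theorem result :
    -- families of involutions
    (∀ (V : Type) [Fintype V] [DecidableEq V] (ι : Type) [Fintype ι] (H : Finset (Finset V))
      (g : ι → V → V) (c m : ℕ), ThreeGraph H → K43Free H → 0 < c →
      (∀ (k : ℕ) (π : V → Fin k), k ≤ 2 → (∀ i, (cl π i).card = m) → InvFamily H π g c →
        Fintype.card ι ≤ c * m → 12 * H.card ≤ (k * m) ^ 3) ∧
      (∀ π : V → Fin 3, (∀ i, (cl π i).card = m) → InvFamily H π g c →
        (∀ i, ∀ e ∈ H, ∃ p ∈ e, π p ≠ i) →
        (Fintype.card ι ≤ c * m → 54 * H.card ≤ 5 * (3 * m) ^ 3) ∧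
        (Fintype.card ι ≤ c * (m - 1) → 2 * H.card ≤ m ^ 2 * (5 * m - 3) ∧
          (2 * H.card = m ^ 2 * (5 * m - 3) ↔
            ∃ δ : Fin 3, δ ≠ 0 ∧ ∀ e, e ∈ H ↔ TuranEdge π δ e)))) ∧
    -- half-turns of abelian groups
    (∀ (E : Type) [AddCommGroup E] [Fintype E] [DecidableEq E],
      (∀ (k : ℕ) (H : Finset (Finset (Fin k × E))), ThreeGraph H → K43Free H →
        HalfTurnInvariant H → k ≤ 2 → 12 * H.card ≤ (k * Fintype.card E) ^ 3) ∧
      (∀ H : Finset (Finset (Fin 3 × E)), ThreeGraph H → K43Free H → HalfTurnInvariant H →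
        IndependentLayers H → 54 * H.card ≤ 5 * (3 * Fintype.card E) ^ 3) ∧
      ∃ H : Finset (Finset (Fin 3 × E)), ThreeGraph H ∧ K43Free H ∧ HalfTurnInvariant H ∧
        IndependentLayers H ∧
        2 * H.card = Fintype.card E ^ 2 * (5 * Fintype.card E - 3)) ∧
    -- free actions of elementary abelian 2-groups with three orbits
    (∀ (V : Type) [Fintype V] [DecidableEq V] (E : Type) [AddCommGroup E] [Fintype E]
      [AddAction E V], (∀ x : E, x + x = 0) → (∀ (g : E) (v : V), g +ᵥ v = v → g = 0) →
      Nat.card (AddAction.orbitRel.Quotient E V) = 3 →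
      ∀ H : Finset (Finset V), ThreeGraph H → K43Free H →
      (∀ g : E, ∀ e ∈ H, e.image (fun v => g +ᵥ v) ∈ H) →
      2 * H.card ≤ Fintype.card E ^ 2 * (5 * Fintype.card E - 3) ∧
      (2 * H.card = Fintype.card E ^ 2 * (5 * Fintype.card E - 3) →
        ∃ π : V → Fin 3, (∀ i, (cl π i).card = Fintype.card E) ∧
          (∀ (g : E) (v : V), π (g +ᵥ v) = π v) ∧ ∀ e, e ∈ H ↔ TuranEdge π 1 e)) := by
  refine ⟨?_, fun E _ _ _ => ⟨fun k H h3 hK hT hk => few h3 hK hT hk,
    fun H h3 hK hT hI => three h3 hK hT hI, turan E 1, turan_three 1, turan_free 1 (by decide),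
      turan_turn 1, turan_indep 1, turan_card 1 (by decide)⟩, ?_⟩
  · intro V _ _ ι _ H g c m h3 hK hc
    refine ⟨fun k π hk hm hg hι => fam_few h3 hK hg hc m hm hι hk, fun π hm hg hI =>
      ⟨fun hι => fam_three h3 hK hg hc hI m hm hι, fun hι =>
        ⟨fam_exact h3 hK hg hc hI m hm hι, fun h => fam_unique h3 hK hg hc hI m hm hι h, ?_⟩⟩⟩
    rintro ⟨δ, hδ, hH⟩
    exact turanEdge_card δ hδ hH m hm
  · intro V _ _ E _ _ _ h2 hfree horb H h3 hK hinv
    classical
    exact free_action h2 hfree horb h3 hK hinv

end Pool.Agent.Results.MP_f1799f_co.HalfTurnSymmetry
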