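import Pool.Agent.N439.OD.Main

/-!
# The exact Turán number for 3-graphs given by oriented graphs

Let `R` be an oriented graph. Call a triple of vertices an edge if it spans at least one arc and
no vertex of the triple sends arcs to the two others. If this 3-graph is `K_4^3`-free then it has
at most as many edges as Turán's construction, for every number `n` of vertices; Turán's
construction is one of these 3-graphs.
-/

set_option autoImplicit false
open Finset
open scoped Classical
open Pool.Agent.TH173.OE (six_choose two_choose)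

namespace Pool.Agent.Results.MP_f1799f_co.OrientedOutStars

/-- `R` is (the arc relation of) an oriented graph: no loops, and at most one arc between two
vertices. -/
def IsOriented {n : ℕ} (R : Fin n → Fin n → Prop) : Prop := ∀ x y, R x y → ¬ R y x

/-- The 3-graph encoded by `R`: the triples which span at least one arc and in which no vertex
sends arcs to both other vertices. -/
noncomputable def encoded {n : ℕ} (R : Fin n → Fin n → Prop) : Finset (Finset (Fin n)) :=
  (univ.powersetCard 3).filter fun s : Finset (Fin n) =>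
    (∃ x ∈ s, ∃ y ∈ s, R x y) ∧ ¬ ∃ x ∈ s, ∀ y ∈ s, y ≠ x → R x y

/-- The 3-graph `H` has no four vertices spanning all four triples. -/
def K43Free {n : ℕ} (H : Finset (Finset (Fin n))) : Prop :=
  ∀ S : Finset (Fin n), S.card = 4 → ∃ s ⊆ S, s.card = 3 ∧ s ∉ H

/-- Turán's number `f(n)`: `f(3s) = s(s-1)(2s-1)`, `f(3s+1) = s^2(2s-1)`, `f(3s+2) = s^2(2s+1)`.
Turán's construction has `C(n,3) - f(n)` edges. -/
def turan (n : ℕ) : ℕ :=
  if n % 3 = 0 then (n / 3) * (n / 3 - 1) * (2 * (n / 3) - 1)
  else if n % 3 = 1 then (n / 3) ^ 2 * (2 * (n / 3) - 1)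
  else (n / 3) ^ 2 * (2 * (n / 3) + 1)

theorem mem_encoded {n : ℕ} {R : Fin n → Fin n → Prop} (hR : IsOriented R) {a b c : Fin n}
    (hab : a ≠ b) (hac : a ≠ c) (hbc : b ≠ c) : (({a, b, c} : Finset (Fin n)) ∈ encoded R ↔
      (R a b ∨ R b a ∨ R a c ∨ R c a ∨ R b c ∨ R c b) ∧
        ¬ (R a b ∧ R a c) ∧ ¬ (R b a ∧ R b c) ∧ ¬ (R c a ∧ R c b)) := by
  have ir : ∀ x, ¬ R x x := fun x h => hR x x h h
  have h3 : ({a, b, c} : Finset (Fin n)).card = 3 := by
    rw [card_insert_of_notMem, card_insert_of_notMem, card_singleton] <;> simp [hab, hac, hbc]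
  unfold encoded
  rw [mem_filter, mem_powersetCard]
  simp only [subset_univ, h3, true_and, mem_insert, mem_singleton, exists_eq_or_imp,
    exists_eq_left, forall_eq_or_imp, forall_eq, ir, ne_eq, not_true_eq_false, hab, hac, hbc,
    hab.symm, hac.symm, hbc.symm, not_false_eq_true, forall_const, false_imp_iff, false_or,
    or_false]
  tauto

theorem upper {n : ℕ} (R : Fin n → Fin n → Prop) (hR : IsOriented R) (hK : K43Free (encoded R)) :
    (encoded R).card + turan n ≤ n.choose 3 := by
  refine Pool.Agent.N439.OD.main78 R hR (encoded R) ?_ hK ?_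
  · intro e he
    unfold encoded at he
    rw [mem_filter, mem_powersetCard] at he
    exact he.1.2
  · intro a b c hab hac hbc
    exact mem_encoded hR hab hac hbc

/-- the residue class `i` mod 3 -/
noncomputable def cls (n i : ℕ) : Finset (Fin n) := univ.filter fun x : Fin n => (x : ℕ) % 3 = i % 3

theorem card_cls (n i : ℕ) : (cls n i).card = n / 3 + if i % 3 < n % 3 then 1 else 0 := by
  have h1 : (cls n i).card = Nat.count (fun x => x % 3 = i % 3) n := by
    rw [Nat.count_eq_card_filter_range]
    refine card_bij (fun x _ => (x : ℕ)) ?_ ?_ ?_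
    · intro x hx
      exact mem_filter.2 ⟨mem_range.2 x.2, (mem_filter.1 hx).2⟩
    · intro x _ y _ h
      exact Fin.ext h
    · intro b hb
      exact ⟨⟨b, mem_range.1 (mem_filter.1 hb).1⟩, mem_filter.2 ⟨mem_univ _, (mem_filter.1 hb).2⟩,
        rfl⟩
  rw [h1]
  exact Nat.count_modEq_card n (r := 3) (by norm_num) i

/-- Turán's oriented graph: all arcs from each residue class mod 3 to the next one -/
def turanR (n : ℕ) (x y : Fin n) : Prop := (y : ℕ) % 3 = ((x : ℕ) + 1) % 3

theorem turan_oriented (n : ℕ) : IsOriented (turanR n) := by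
  intro x y h1 h2
  unfold turanR at h1 h2
  omega

/-- the triples which are not edges of Turán's construction -/
theorem turan_compl (n : ℕ) : (univ.powersetCard 3) \ encoded (turanR n) ⊆
    (range 3).biUnion (fun i => (cls n i).powersetCard 3 ∪
      ((cls n i) ×ˢ ((cls n (i + 1)).powersetCard 2)).image (fun p => insert p.1 p.2)) := by
  intro s hs
  rw [mem_sdiff] at hs
  obtain ⟨hs3, hse⟩ := hs
  have hcard := (mem_powersetCard.1 hs3).2
  have hse' : (∃ x ∈ s, ∃ y ∈ s, turanR n x y) → ∃ x ∈ s, ∀ y ∈ s, y ≠ x → turanR n x y := by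
    intro h
    by_contra h'
    apply hse
    unfold encoded
    rw [mem_filter]
    exact ⟨hs3, h, h'⟩
  by_cases h : ∃ x ∈ s, ∃ y ∈ s, turanR n x y
  · obtain ⟨x, hx, h⟩ := hse' h
    refine mem_biUnion.2 ⟨(x : ℕ) % 3, mem_range.2 (Nat.mod_lt _ (by norm_num)), mem_union.2 ?_⟩
    right
    have hx0 : x ∈ cls n ((x : ℕ) % 3) := mem_filter.2 ⟨mem_univ _, by omega⟩
    refine mem_image.2 ⟨(x, s.erase x), mem_product.2 ⟨hx0,
      mem_powersetCard.2 ⟨fun y hy => mem_filter.2 ⟨mem_univ _, ?_⟩, ?_⟩⟩, insert_erase hx⟩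
    · have := h y (mem_of_mem_erase hy) (ne_of_mem_erase hy)
      unfold turanR at this
      omega
    · rw [card_erase_of_mem hx, hcard]
  · push Not at h
    obtain ⟨x, hx⟩ : s.Nonempty := by
      rw [← card_pos, hcard]
      norm_num
    refine mem_biUnion.2 ⟨(x : ℕ) % 3, mem_range.2 (Nat.mod_lt _ (by norm_num)), mem_union.2 ?_⟩
    left
    refine mem_powersetCard.2 ⟨fun y hy => mem_filter.2 ⟨mem_univ _, ?_⟩, hcard⟩
    have h1 := h x hx y hy
    have h2 := h y hy x hx
    unfold turanR at h1 h2
    omega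

theorem choose_bound (n : ℕ) : ∑ i ∈ range 3, ((cls n i).card.choose 3 +
    (cls n i).card * (cls n (i + 1)).card.choose 2) = turan n := by
  obtain ⟨s, r, hr, hs⟩ : ∃ s r, r < 3 ∧ n = 3 * s + r := ⟨n / 3, n % 3, by omega, by omega⟩
  have h1 : n / 3 = s := by omega
  have h2 : n % 3 = r := by omega
  rw [sum_range_succ, sum_range_succ, sum_range_succ, sum_range_zero]
  simp only [card_cls, h1, h2]
  unfold turan
  rw [h1, h2]
  have e3 : (0 : ℕ) % 3 = 0 := rfl
  have e4 : (0 + 1 : ℕ) % 3 = 1 := rfl
  have e6 : (1 + 1 : ℕ) % 3 = 2 := rfl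
  simp only [e3, e4, e6, zero_add]
  rcases Nat.eq_zero_or_pos s with rfl | hs0
  · interval_cases r <;> decide
  obtain ⟨k, rfl⟩ : ∃ k, s = k + 1 := ⟨s - 1, by omega⟩
  rcases Nat.eq_zero_or_pos k with rfl | hk0
  · interval_cases r <;> decide
  obtain ⟨l, rfl⟩ : ∃ l, k = l + 1 := ⟨k - 1, by omega⟩
  have a1 := six_choose l
  have a2 := two_choose (l + 1)
  have a3 := six_choose (l + 1)
  have a4 := two_choose (l + 2)
  have : (6 : ℤ) ≠ 0 := by norm_num
  interval_cases r
  · have e9 : 2 * (l + 1 + 1) - 1 = 2 * l + 3 := by omega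
    have e10 : l + 1 + 1 - 1 = l + 1 := by omega
    norm_num
    rw [e9]
    zify at a1 a2 ⊢
    apply mul_left_cancel₀ this
    linear_combination 3 * a1 + 9 * (l + 2) * a2
  · have e9 : 2 * (l + 1 + 1) - 1 = 2 * l + 3 := by omega
    norm_num
    rw [e9]
    zify at a1 a2 a3 a4 ⊢
    apply mul_left_cancel₀ this
    linear_combination 2 * a1 + a3 + 3 * (l + 3) * a2 + 3 * (l + 2) * a2 + 3 * (l + 2) * a4
  · norm_num
    zify at a1 a2 a3 a4 ⊢
    apply mul_left_cancel₀ this
    linear_combination a1 + 2 * a3 + 3 * (l + 3) * a2 + 3 * (l + 3) * a4 + 3 * (l + 2) * a4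

/-- Turán's construction is one of the 3-graphs. -/
theorem lower (n : ℕ) : n.choose 3 ≤ (encoded (turanR n)).card + turan n := by
  have h1 := card_le_card (turan_compl n)
  have h2 := h1.trans (card_biUnion_le.trans (sum_le_sum fun i _ =>
    (card_union_le _ _).trans (Nat.add_le_add_left card_image_le _)))
  simp only [card_powersetCard, card_product] at h2
  rw [choose_bound] at h2
  have h3 : encoded (turanR n) ⊆ univ.powersetCard 3 := filter_subset _ _
  have h4 := card_sdiff_add_card_eq_card h3
  rw [card_powersetCard, card_univ, Fintype.card_fin] at h4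
  omega

theorem turan_free (n : ℕ) : K43Free (encoded (turanR n)) := by
  intro S hS
  by_contra hcon
  push Not at hcon
  have hR := turan_oriented n
  -- two of the four vertices are in the same class
  obtain ⟨x, hx, y, hy, hxy, hmod⟩ : ∃ x ∈ S, ∃ y ∈ S, x ≠ y ∧ (x : ℕ) % 3 = (y : ℕ) % 3 := by
    have hcard : (range 3).card < S.card := by
      rw [hS, card_range]
      norm_num
    exact exists_ne_map_eq_of_card_lt_of_maps_to hcard
      (fun z _ => mem_coe.2 (mem_range.2 (Nat.mod_lt (z : ℕ) (by norm_num))))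
  have h2 : ((S.erase x).erase y).card = 2 := by
    rw [card_erase_of_mem (mem_erase.2 ⟨hxy.symm, hy⟩), card_erase_of_mem hx, hS]
  obtain ⟨c, d, hcd, he⟩ := card_eq_two.1 h2
  have hc : c ∈ (S.erase x).erase y := by
    rw [he]
    simp
  have hd : d ∈ (S.erase x).erase y := by
    rw [he]
    simp
  rw [mem_erase, mem_erase] at hc hd
  have hsub : ∀ a b c : Fin n, a ∈ S → b ∈ S → c ∈ S → a ≠ b → a ≠ c → b ≠ c →
      ({a, b, c} : Finset (Fin n)) ∈ encoded (turanR n) := by
    intro a b c ha hb hc hab hac hbc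
    apply hcon
    · intro z hz
      simp only [mem_insert, mem_singleton] at hz
      rcases hz with rfl | rfl | rfl <;> assumption
    · rw [card_insert_of_notMem, card_insert_of_notMem, card_singleton] <;> simp [hab, hac, hbc]
  have k1 := hsub x y c hx hy hc.2.2 hxy hc.2.1.symm hc.1.symm
  have k2 := hsub x y d hx hy hd.2.2 hxy hd.2.1.symm hd.1.symm
  have k3 := hsub x c d hx hc.2.2 hd.2.2 hc.2.1.symm hd.2.1.symm hcd
  rw [mem_encoded hR hxy hc.2.1.symm hc.1.symm] at k1
  rw [mem_encoded hR hxy hd.2.1.symm hd.1.symm] at k2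
  rw [mem_encoded hR hc.2.1.symm hd.2.1.symm hcd] at k3
  have l1 : (c : ℕ) % 3 = ((x : ℕ) + 1) % 3 := by
    unfold turanR at k1
    omega
  have l2 : (d : ℕ) % 3 = ((x : ℕ) + 1) % 3 := by
    unfold turanR at k2
    omega
  exact k3.2.1 ⟨l1, l2⟩

/-- **The exact Turán number of the `K_4^3`-free 3-graphs encoded by oriented graphs.** For every
`n`, `C(n,3) - f(n)` is the largest number of edges of a `K_4^3`-free 3-graph `encoded R`, where
`R` is an oriented graph on `n` vertices. -/
theorem result (n : ℕ) :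
    (∀ R : Fin n → Fin n → Prop, IsOriented R → K43Free (encoded R) →
      (encoded R).card + turan n ≤ n.choose 3) ∧
    (∃ R : Fin n → Fin n → Prop, IsOriented R ∧ K43Free (encoded R) ∧
      (encoded R).card + turan n = n.choose 3) :=
  ⟨fun R hR hK => upper R hR hK, turanR n, turan_oriented n, turan_free n,
    le_antisymm (upper _ (turan_oriented n) (turan_free n)) (lower n)⟩

end Pool.Agent.Results.MP_f1799f_co.OrientedOutStars
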